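import Pool.Agent.E8helper22.VQ.Stm

/-! Piece VQ1 (ORT): the sum of a character over the reduced residues modulo a multiple. -/

set_option autoImplicit false

namespace Pool.Agent.E8helper85.VQ

open Finset Pool.Agent.E8helper22.VQ

theorem t_ORT : S_ORT := by
  intro m Q χ hQ hm
  classical
  haveI : NeZero Q := ⟨hQ.ne'⟩
  have h1 : ∑ A ∈ (range Q).filter (fun A => A.Coprime Q), χ ((A : ℕ) : ZMod m) =
      ∑ a : ZMod Q, DirichletCharacter.changeLevel hm χ a := by
    rw [Finset.sum_filter]
    refine Finset.sum_nbij' (fun A => (A : ZMod Q)) (fun a => a.val) ?_ ?_ ?_ ?_ ?_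
    · intro A _
      exact Finset.mem_univ _
    · intro a _
      exact Finset.mem_range.2 (ZMod.val_lt a)
    · intro A hA
      exact ZMod.val_cast_of_lt (Finset.mem_range.1 hA)
    · intro a _
      exact ZMod.natCast_zmod_val a
    · intro A _
      by_cases hc : A.Coprime Q
      · rw [if_pos hc]
        have h2 := DirichletCharacter.changeLevel_eq_cast_of_dvd χ hm (ZMod.unitOfCoprime A hc)
        rw [ZMod.coe_unitOfCoprime, ZMod.cast_natCast hm] at h2
        exact h2.symm
      · rw [if_neg hc]
        refine (MulChar.map_nonunit _ ?_).symm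
        rw [ZMod.isUnit_iff_coprime]
        exact hc
  rw [h1]
  unfold mainT
  by_cases hχ : χ = 1
  · subst hχ
    rw [if_pos rfl, DirichletCharacter.changeLevel_one, MulChar.sum_one_eq_card_units,
      ZMod.card_units_eq_totient]
    simp
  · rw [if_neg hχ]
    refine MulChar.sum_eq_zero_of_ne_one ?_
    rw [Ne, DirichletCharacter.changeLevel_eq_one_iff]
    exact hχ

end Pool.Agent.E8helper85.VQ
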